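import Pool.Agent.helper3.DP.SpecG1
import Pool.Agent.helper96.DP.Basic

/-! Project dp, module G1S: the slit reaches infinity. -/

namespace DP

theorem G1S_left (W : Set V) (a : ℤ) (hW : ∀ w : V, w.1 < a → w ∈ W) (p q : ℤ) (hp : p < a)
    (k : ℕ) : Con W (p, q) (p - k, q) := by
  induction k with
  | zero => simpa using Con.refl (hW (p, q) hp)
  | succ k ih =>
    refine ih.tail ?_ (hW _ ?_)
    · have := adj_left (p - k, q)
      have e : ((p - (k : ℤ), q) : V).1 - 1 = p - ((k + 1 : ℕ) : ℤ) := by push_cast; ring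
      rw [e] at this
      exact this
    · show p - ((k + 1 : ℕ) : ℤ) < a
      push_cast
      omega

theorem G1S (hR : G1R_stmt) (hI : G1I_stmt) : G1S_stmt := by
  intro N b n v x m R hv hv1 hm
  have hc := (hR N).2.2 _ b v hv
  obtain ⟨-, -, h1, -⟩ := hc
  rcases h1 with h1 | ⟨u, hu, hub, huv⟩
  · omega
  · obtain ⟨u0, hu0, hcon⟩ := (hI N b n).2.1 u hu hub
    have hc1 : Con (gsl N (run (gnext N) b n)) u u0 := by
      refine Con.mono ?_ hcon
      intro w hw
      exact Or.inl hw.1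
    obtain ⟨p, q⟩ := u0
    simp only at hu0
    subst hu0
    have hW : ∀ w : V, w.1 < -(4 * N : ℤ) → w ∈ gsl N (run (gnext N) b n) := fun w hw => Or.inr hw
    have hstep : Con (gsl N (run (gnext N) b n)) (-(4 * N : ℤ), q) (-(4 * N : ℤ) - 1, q) :=
      Con.single (Con.mem_right hc1) (adj_left _) (hW _ (by simp))
    obtain ⟨K, hK⟩ : ∃ K : ℕ, (R : ℤ) ≤ x.1 + 4 * N + 1 + K := by
      refine ⟨R + (x.1 + 4 * N).natAbs, ?_⟩
      have h1 : -(x.1 + 4 * N) ≤ ((x.1 + 4 * N).natAbs : ℤ) := by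
        rw [Int.natCast_natAbs]
        exact neg_le_abs _
      generalize (x.1 + 4 * N).natAbs = z at h1
      push_cast
      omega
    have hleft := G1S_left _ _ hW (-(4 * N : ℤ) - 1) q (by omega) K
    refine ⟨u, _, ?_, ?_, hc1.trans (hstep.trans hleft)⟩
    · have := huv.sd_le x
      omega
    · have h2 : ((x.1 - (-(4 * N : ℤ) - 1 - (K : ℤ))).natAbs) ≤
          sd x (-(4 * N : ℤ) - 1 - (K : ℤ), q) := le_max_left _ _
      refine le_trans ?_ h2
      omega

end DP
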