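import Pool.Agent.helper3.DP.SpecG2
import Pool.Agent.helper95.DP.Fin

/-! Project dp, module G3S: sum over the scales in the slit lemma. -/

namespace DP

open MeasureTheory

theorem G3S_overlap (s : Finset ℕ) (F : ℕ → Set (V → Bool)) (G : Set (V → Bool))
    (hF : ∀ i ∈ s, MeasurableSet (F i)) (hFG : ∀ i ∈ s, F i ⊆ G)
    (h : ∀ i ∈ s, ∀ i' ∈ s, i + 5 ≤ i' → Disjoint (F i) (F i')) :
    ∑ i ∈ s, Pr (F i) ≤ 5 * Pr G := by
  have h1 : ∑ i ∈ s, Pr (F i) = ∑ r ∈ Finset.range 5, ∑ i ∈ s with i % 5 = r, Pr (F i) :=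
    (Finset.sum_fiberwise_of_maps_to (fun i _ => Finset.mem_range.2 (Nat.mod_lt i (by norm_num)))
      _).symm
  have h2 : ∀ r ∈ Finset.range 5, ∑ i ∈ s with i % 5 = r, Pr (F i) ≤ Pr G := by
    intro r _
    have hp : ((s.filter fun i => i % 5 = r : Finset ℕ) : Set ℕ).PairwiseDisjoint F := by
      intro i hi i' hi' hne
      simp only [Finset.coe_filter, Set.mem_ofPred_eq] at hi hi'
      rcases lt_or_gt_of_ne hne with h3 | h3
      · exact h i hi.1 i' hi'.1 (by omega)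
      · exact (h i' hi'.1 i hi.1 (by omega)).symm
    have h3 := measureReal_biUnion_finset (μ := P1) hp
      (fun i hi => hF i (Finset.mem_filter.1 hi).1)
    unfold Pr
    rw [← h3]
    refine measureReal_mono (Set.iUnion₂_subset fun i hi => hFG i (Finset.mem_filter.1 hi).1) ?_
    exact measure_ne_top _ _
  calc ∑ i ∈ s, Pr (F i) = ∑ r ∈ Finset.range 5, ∑ i ∈ s with i % 5 = r, Pr (F i) := h1
    _ ≤ ∑ r ∈ Finset.range 5, Pr G := Finset.sum_le_sum h2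
    _ = 5 * Pr G := by simp

theorem G3S_indep (hi : Bindep_stmt) (hz : Bzero_stmt) {F G : Set (V → Bool)} {A A' : Set V}
    (hA : Disjoint A A') (hF : Loc F A) (hG : Loc G A') : Pr (F ∩ G) = Pr F * Pr G := by
  have h := hi (fun _ => 0) F F G G A A' hA hF hF hG hG
  rw [hz _ _ _ _ (hF.inter hG) (hF.inter hG) (fun _ _ => rfl), hz _ _ _ _ hF hF (fun _ _ => rfl),
    hz _ _ _ _ hG hG (fun _ _ => rfl), Set.inter_self, Set.inter_self, Set.inter_self] at h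
  exact h

theorem G3S_meas (hl : GLA_stmt) (hx : GXL_stmt) (hs : GXS_stmt) (γ : Set V) (x : V)
    (k₀ L i : ℕ) (j : Bool) : MeasurableSet (Ev fun c => Fev c γ x k₀ L i j) := by
  have hA : ∀ k, MeasurableSet (Ev fun c => armA c k γ x (2 ^ k₀) (2 ^ (i - 1))) := fun k =>
    ((hl x _ _).2.2 k γ).measurableSet
  have hT : ∀ k, MeasurableSet (Ev fun c => MrkC c 2 true x (2 ^ (i + 1)) (Dfree true x (2 ^ k₀))
      (zpt x (2 ^ (i + 1))) (2 ^ (i + 1) / 64) (2 ^ (i + 1) / 8) k) := fun k =>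
    (hx 2 true x _ _ _ _ _ k (Or.inl rfl)).1.measurableSet
  have hT' : ∀ k, MeasurableSet (Ev fun c => MrkC c 2 false x (2 ^ (i + 4)) (Dfree false x (2 ^ L))
      (zpt x (2 ^ (i + 4))) (2 ^ (i + 4) / 64) (2 ^ (i + 4) / 8) k) := fun k =>
    (hx 2 false x _ _ _ _ _ k (Or.inr ⟨2 ^ L, by
      intro v hv
      simpa [Dfree] using hv⟩)).1.measurableSet
  have hS : ∀ k, MeasurableSet (Ev fun c => Sw c k j x (2 ^ (i - 4))) := fun k =>
    (hs.1 k j x _).1.measurableSet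
  have e : (Ev fun c => Fev c γ x k₀ L i j) =
      (((Ev fun c => armA c true γ x (2 ^ k₀) (2 ^ (i - 1))) ∩
        (Ev fun c => armA c false γ x (2 ^ k₀) (2 ^ (i - 1)))) ∩
      ((Ev fun c => MrkC c 2 true x (2 ^ (i + 1)) (Dfree true x (2 ^ k₀))
          (zpt x (2 ^ (i + 1))) (2 ^ (i + 1) / 64) (2 ^ (i + 1) / 8) true) ∩
        (Ev fun c => MrkC c 2 true x (2 ^ (i + 1)) (Dfree true x (2 ^ k₀))
          (zpt x (2 ^ (i + 1))) (2 ^ (i + 1) / 64) (2 ^ (i + 1) / 8) false))) ∩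
      (((Ev fun c => MrkC c 2 false x (2 ^ (i + 4)) (Dfree false x (2 ^ L))
          (zpt x (2 ^ (i + 4))) (2 ^ (i + 4) / 64) (2 ^ (i + 4) / 8) true) ∩
        (Ev fun c => MrkC c 2 false x (2 ^ (i + 4)) (Dfree false x (2 ^ L))
          (zpt x (2 ^ (i + 4))) (2 ^ (i + 4) / 64) (2 ^ (i + 4) / 8) false)) ∩
      ((Ev fun c => Sw c true j x (2 ^ (i - 4))) ∩ (Ev fun c => Sw c false j x (2 ^ (i - 4))))) := rfl
  rw [e]
  exact (((hA _).inter (hA _)).inter ((hT _).inter (hT _))).inter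
    (((hT' _).inter (hT' _)).inter ((hS _).inter (hS _)))

theorem G3S (hD : G3D_stmt) (hE : G3E_stmt) (hP : G3P_stmt) (hQ : G3Q_stmt) (hB : GBB_stmt)
    (hM : GFM_stmt) (hl : GLA_stmt) (hx : GXL_stmt) (hs : GXS_stmt) (hi : Bindep_stmt)
    (hz : Bzero_stmt) : G3S_stmt := by
  obtain ⟨c₁, hc₁, i₁, hP⟩ := hP
  obtain ⟨c₂, hc₂, i₂, hQ⟩ := hQ
  obtain ⟨c₃, hc₃, i₃, hB⟩ := hB
  refine ⟨5 / (c₁ * c₂ * c₃), by positivity, max (max i₁ i₂) (max i₃ 4), ?_⟩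
  intro γ x k₀ k L hx1 hx2 hγ hk₀ hk
  have h1 : i₁ ≤ k₀ := (le_max_left _ _).trans ((le_max_left _ _).trans hk₀)
  have h2 : i₂ ≤ k₀ := (le_max_right _ _).trans ((le_max_left _ _).trans hk₀)
  have h3 : i₃ ≤ k₀ := (le_max_left _ _).trans ((le_max_right _ _).trans hk₀)
  have h4 : 4 ≤ k₀ := (le_max_right _ _).trans ((le_max_right _ _).trans hk₀)
  have hbk := (hB x k₀ k hx1 hx2 h3 hk).1
  have hyk : 0 ≤ yy γ x k₀ k := measureReal_nonneg
  rcases Nat.lt_or_ge k (L - 6) with hkL | hkL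
  swap
  · rw [Finset.Ioc_eq_empty (by omega), Finset.sum_empty]
    positivity
  have hbL := (hB x k₀ L hx1 hx2 h3 (by omega)).1
  -- the choice of the switch
  have hE' : ∀ i, ∃ j : Bool, 4 ≤ i → ∀ (c : V → Bool) (k₀ L : ℕ), k₀ < i → Fev c γ x k₀ L i j →
      ¬ twoA c γ x (2 ^ k₀) (2 ^ (i + 4)) := by
    intro i
    by_cases h : 4 ≤ i
    · obtain ⟨j, hj⟩ := hE γ x i h hγ
      exact ⟨j, fun _ => hj⟩
    · exact ⟨true, fun h' => absurd h' h⟩
  choose J hJ using hE'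
  set F : ℕ → Set (V → Bool) := fun i => Ev fun c => Fev c γ x k₀ L i (J i) with hF
  set G : Set (V → Bool) := (Ev fun c => twoA c γ x (2 ^ k₀) (2 ^ k)) ∩
    Ev fun c => two c x (2 ^ (k + 1)) (2 ^ L) with hG
  have hp : ∀ {a b : ℕ}, a ≤ b → 2 ^ a ≤ 2 ^ b := fun h => Nat.pow_le_pow_right (by norm_num) h
  have hmono : ∀ (c : V → Bool) (a b : ℕ), k₀ ≤ a → a ≤ b → twoA c γ x (2 ^ k₀) (2 ^ b) →
      twoA c γ x (2 ^ k₀) (2 ^ a) := by
    intro c a b ha hab h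
    have := (hM c x (2 ^ k₀) (2 ^ k₀) (2 ^ a) (2 ^ b) le_rfl (hp ha) (hp hab)).2.2
    exact ⟨this _ _ h.1, this _ _ h.2⟩
  have hsum : ∑ i ∈ Finset.Ioc k (L - 6), Pr (F i) ≤ 5 * Pr G := by
    refine G3S_overlap _ F G (fun i _ => G3S_meas hl hx hs γ x k₀ L i (J i)) ?_ ?_
    · intro i hi b hb
      rw [Finset.mem_Ioc] at hi
      have hb' : Fev (col b) γ x k₀ L i (J i) := hb
      refine ⟨hmono (col b) k (i - 1) hk.le (by omega) hb'.1.1, ?_⟩
      have h5 := hD (col b) γ x k₀ L i (J i) (by omega) (by omega) (by omega) hb'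
      have := (hM (col b) x (2 ^ k₀) (2 ^ (k + 1)) (2 ^ L) (2 ^ L) (hp (by omega)) (hp (by omega))
        le_rfl).1
      exact ⟨this _ h5.1, this _ h5.2⟩
    · intro i hi i' hi' hii
      rw [Finset.mem_Ioc] at hi hi'
      rw [Set.disjoint_left]
      intro b hb hb'
      have hb1 : Fev (col b) γ x k₀ L i (J i) := hb
      have hb2 : Fev (col b) γ x k₀ L i' (J i') := hb'
      refine hJ i (by omega) (col b) k₀ L (by omega) hb1 ?_
      exact hmono (col b) (i + 4) (i' - 1) (by omega) (by omega) hb2.1.1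
  set T : ℝ := Pr (Ev fun c => two c x (2 ^ (k + 1)) (2 ^ L)) with hT
  have hGP : Pr G = yy γ x k₀ k * T := by
    have hloc1 : Loc (Ev fun c => twoA c γ x (2 ^ k₀) (2 ^ k)) (ann x (2 ^ k₀) (2 ^ k)) :=
      ((((hl x _ _).2.2 true γ).mono Set.sdiff_subset).inter
        (((hl x _ _).2.2 false γ).mono Set.sdiff_subset)).mono (by simp)
    have hloc2 : Loc (Ev fun c => two c x (2 ^ (k + 1)) (2 ^ L)) (ann x (2 ^ (k + 1)) (2 ^ L)) :=
      (((hl x _ _).1 true).inter ((hl x _ _).1 false)).mono (by simp)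
    refine G3S_indep hi hz ?_ hloc1 hloc2
    rw [Set.disjoint_left]
    rintro v ⟨-, hv1⟩ ⟨hv2, -⟩
    have : 2 ^ k < 2 ^ (k + 1) := Nat.pow_lt_pow_right (by norm_num) (by omega)
    omega
  -- lower bound for every scale
  have hlow : ∀ i ∈ Finset.Ioc k (L - 6), c₁ * c₂ * bb x k₀ L * (uu γ x k₀ i / bb x k₀ i) ≤
      Pr (F i) := by
    intro i hi
    rw [Finset.mem_Ioc] at hi
    have hu : 0 ≤ uu γ x k₀ i := measureReal_nonneg
    have h5 := hP γ x k₀ L i (J i) h1 (by omega) (by omega)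
    have h6 := hQ x L i hx1 hx2 (by omega) (by omega)
    obtain ⟨hb0, -, -, h7⟩ := hB x k₀ i hx1 hx2 h3 (by omega)
    have h8 := (h7 L (by omega)).2 (by omega)
    have h9 : bb x k₀ L / bb x k₀ i ≤ Pr (Ev fun c => two c x (2 ^ (i + 5)) (2 ^ L)) := by
      rw [div_le_iff₀ hb0]
      linarith
    calc c₁ * c₂ * bb x k₀ L * (uu γ x k₀ i / bb x k₀ i)
        = c₁ * (uu γ x k₀ i * (c₂ * (bb x k₀ L / bb x k₀ i))) := by ring
      _ ≤ c₁ * (uu γ x k₀ i * (c₂ * Pr (Ev fun c => two c x (2 ^ (i + 5)) (2 ^ L)))) := by gcongr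
      _ ≤ c₁ * (uu γ x k₀ i *
          Pr (Ev fun c => Std c 2 false x (2 ^ (i + 4)) (Dfree false x (2 ^ L)))) := by gcongr
      _ ≤ Pr (F i) := h5
  have hTb : c₃ * (bb x k₀ k * T) ≤ bb x k₀ L :=
    ((hB x k₀ k hx1 hx2 h3 hk).2.2.2 L (by omega)).1
  have hfin : c₁ * c₂ * bb x k₀ L * ∑ i ∈ Finset.Ioc k (L - 6), uu γ x k₀ i / bb x k₀ i ≤
      5 * (yy γ x k₀ k * T) := by
    rw [← hGP, Finset.mul_sum]
    exact (Finset.sum_le_sum hlow).trans hsum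
  have hT2 : T ≤ bb x k₀ L / (c₃ * bb x k₀ k) := by
    rw [le_div_iff₀ (by positivity)]
    linarith
  have hfin2 : c₁ * c₂ * bb x k₀ L * ∑ i ∈ Finset.Ioc k (L - 6), uu γ x k₀ i / bb x k₀ i ≤
      5 * (yy γ x k₀ k * (bb x k₀ L / (c₃ * bb x k₀ k))) :=
    hfin.trans (by gcongr)
  have hpos : 0 < c₁ * c₂ * bb x k₀ L := by positivity
  rw [← mul_le_mul_iff_right₀ hpos]
  refine hfin2.trans (le_of_eq ?_)
  field_simp

end DP
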