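import Pool.Agent.helper3.DP.SpecG1
import Pool.Agent.helper96.DP.Basic

/-! Project dp, module GTR: translation invariance of the arm events. -/

namespace DP

open MeasureTheory

theorem GTR_sd (x u v : V) : sd (u + x) (v + x) = sd u v := by
  simp [sd, Prod.fst_add, Prod.snd_add]

theorem GTR_adj {x : V} (hx1 : Even x.1) (hx2 : Even x.2) {u v : V} (h : Adj u v) :
    Adj (u + x) (v + x) := by
  obtain ⟨h1, h2⟩ := h
  refine ⟨by rw [GTR_sd]; exact h1, ?_⟩
  rcases h2 with h2 | h2 | h2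
  · left; simp [h2]
  · right; left; simp [h2]
  · right; right
    simp only [Prod.fst_add, Prod.snd_add]
    have : u.1 + x.1 + (u.2 + x.2) = (u.1 + u.2) + (x.1 + x.2) := by ring
    rw [this]
    exact h2.add (hx1.add hx2)

theorem GTR_con {x : V} (hx1 : Even x.1) (hx2 : Even x.2) {W W' : Set V}
    (hW : ∀ w ∈ W, w + x ∈ W') {u v : V} (h : Con W u v) : Con W' (u + x) (v + x) := by
  refine h.induct (fun a => Con W' (u + x) (a + x)) (Con.refl (hW _ h.mem_left)) ?_
  intro a b _ hb hab _ ih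
  exact ih.tail (GTR_adj hx1 hx2 hab) (hW _ hb)

theorem GTR_conn {x : V} (hx1 : Even x.1) (hx2 : Even x.2) (c : V → Bool) (k : Bool) (y : V)
    (m n : ℕ) (u v : V) :
    Conn (fun w => c (w + x)) k (ann y m n) u v ↔ Conn c k (ann (y + x) m n) (u + x) (v + x) := by
  constructor
  · intro h
    refine GTR_con hx1 hx2 ?_ h
    intro w hw
    refine ⟨?_, hw.2⟩
    have := hw.1
    simp only [ann, Set.mem_ofPred_eq, GTR_sd] at this ⊢
    exact this
  · intro h
    have h' := GTR_con (x := -x) (W' := {w | w ∈ ann y m n ∧ c (w + x) = k})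
      (by simpa using hx1.neg) (by simpa using hx2.neg) ?_ h
    · have h2 : Con {w | w ∈ ann y m n ∧ c (w + x) = k} u v := by simpa using h'
      exact h2
    · intro w hw
      refine ⟨?_, by simpa using hw.2⟩
      have := hw.1
      simp only [ann, Set.mem_ofPred_eq] at this ⊢
      have e := GTR_sd x y (w + -x)
      simp only [neg_add_cancel_right] at e
      rwa [← e]

theorem GTR_bd {x y u : V} {m : ℕ} : u + x ∈ bd (y + x) m ↔ u ∈ bd y m := by
  simp only [bd, Set.mem_ofPred_eq, GTR_sd]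

theorem GTR_ex {x : V} {p : V → Prop} : (∃ u, p u) ↔ ∃ u, p (u + x) :=
  ⟨fun ⟨u, hu⟩ => ⟨u + -x, by simpa using hu⟩, fun ⟨u, hu⟩ => ⟨_, hu⟩⟩

theorem GTR_arm {x : V} (hx1 : Even x.1) (hx2 : Even x.2) (c : V → Bool) (k : Bool) (m n : ℕ) :
    arm (fun w => c (w + x)) k 0 m n ↔ arm c k x m n := by
  unfold arm
  rw [GTR_ex (x := x) (p := fun u => u ∈ bd x m ∧ ∃ v ∈ bd x n, Conn c k (ann x m n) u v)]
  refine exists_congr fun u => ?_
  rw [GTR_ex (x := x) (p := fun v => v ∈ bd x n ∧ Conn c k (ann x m n) (u + x) v)]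
  have e : ∀ (w : V) (r : ℕ), w + x ∈ bd x r ↔ w ∈ bd 0 r := by
    intro w r
    have := GTR_bd (x := x) (y := 0) (u := w) (m := r)
    rwa [zero_add] at this
  rw [e]
  refine and_congr_right fun _ => exists_congr fun v => ?_
  rw [e]
  refine and_congr_right fun _ => ?_
  have := GTR_conn hx1 hx2 c k 0 m n u v
  rwa [zero_add] at this

theorem GTR_four {x : V} (hx1 : Even x.1) (hx2 : Even x.2) (c : V → Bool) (m n : ℕ) :
    four (fun w => c (w + x)) 0 m n ↔ four c x m n := by
  have e : ∀ (w : V) (r : ℕ), w + x ∈ bd x r ↔ w ∈ bd 0 r := by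
    intro w r
    have := GTR_bd (x := x) (y := 0) (u := w) (m := r)
    rwa [zero_add] at this
  have e2 : ∀ u v : V, Conn (fun w => c (w + x)) true (ann 0 m n) u v ↔
      Conn c true (ann x m n) (u + x) (v + x) := by
    intro u v
    have := GTR_conn hx1 hx2 c true 0 m n u v
    rwa [zero_add] at this
  unfold four twoCl
  constructor
  · rintro ⟨u, hu, v, hv, ⟨u', hu', h1⟩, ⟨v', hv', h2⟩, h3⟩
    exact ⟨u + x, (e _ _).2 hu, v + x, (e _ _).2 hv, ⟨u' + x, (e _ _).2 hu', (e2 _ _).1 h1⟩,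
      ⟨v' + x, (e _ _).2 hv', (e2 _ _).1 h2⟩, fun h => h3 ((e2 _ _).2 h)⟩
  · rintro ⟨u, hu, v, hv, ⟨u', hu', h1⟩, ⟨v', hv', h2⟩, h3⟩
    have s : ∀ w : V, (w + -x) + x = w := fun w => by simp
    refine ⟨u + -x, (e _ _).1 (by rwa [s]), v + -x, (e _ _).1 (by rwa [s]),
      ⟨u' + -x, (e _ _).1 (by rwa [s]), (e2 _ _).2 (by rwa [s, s])⟩,
      ⟨v' + -x, (e _ _).1 (by rwa [s]), (e2 _ _).2 (by rwa [s, s])⟩, fun h => h3 ?_⟩
    have := (e2 _ _).1 h
    rwa [s, s] at this

theorem GTR_col {x : V} (hx1 : Even x.1) (hx2 : Even x.2) (b : V → Bool) :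
    col (fun w => b (w + x)) = fun w => col b (w + x) := by
  funext w
  obtain ⟨a, ha⟩ := hx1
  obtain ⟨d, hd⟩ := hx2
  unfold col
  have e1 : (w + x).1 % 2 = w.1 % 2 := by simp only [Prod.fst_add]; omega
  have e2 : (w + x).2 % 2 = w.2 % 2 := by simp only [Prod.snd_add]; omega
  rw [e1, e2]

theorem GTR_loc_arm (k : Bool) (x : V) (m n : ℕ) : Loc (Ev fun c => arm c k x m n) (ann x m n) := by
  refine Loc.ev (ann_finite x m n) fun c c' h => ?_
  have := fun u v => Conn.congr (k := k) h (u := u) (v := v)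
  simp only [arm, this]

theorem GTR_loc_two (x : V) (m n : ℕ) : Loc (Ev fun c => two c x m n) (ann x m n) := by
  refine Loc.ev (ann_finite x m n) fun c c' h => ?_
  have := fun k u v => Conn.congr (k := k) h (u := u) (v := v)
  simp only [two, arm, this]

theorem GTR_loc_four (x : V) (m n : ℕ) : Loc (Ev fun c => four c x m n) (ann x m n) := by
  refine Loc.ev (ann_finite x m n) fun c c' h => ?_
  have := fun k u v => Conn.congr (k := k) h (u := u) (v := v)
  simp only [four, twoCl, this]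

/-- Invariance of `Pr` under bijections of the sites. -/
theorem GTR_pr (hs : Bsym_stmt) (hm : Bmarg_stmt) (φ : V ≃ V) (F : Set (V → Bool)) (A A' : Set V)
    (hF : Loc F A) (hF' : Loc {b : V → Bool | (fun v => b (φ v)) ∈ F} A') :
    Pr {b : V → Bool | (fun v => b (φ v)) ∈ F} = Pr F := by
  have h := hs φ (fun _ => 0) F Set.univ A hF (Loc.univ A)
  have e : {b : V → Bool | (fun v => b (φ v)) ∈ (Set.univ : Set (V → Bool))} = Set.univ := by
    ext b; simp
  rw [e] at h
  rw [hm _ F A hF] at h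
  have h2 := hm (fun v => (fun _ : V => (0 : ℝ)) (φ.symm v)) _ A' hF'
  rw [← h2]
  exact h

theorem GTR (hs : Bsym_stmt) (hm : Bmarg_stmt) : GTR_stmt := by
  intro x m n hx1 hx2
  have key : ∀ P : (V → Bool) → V → Prop, (∀ c, P (fun w => c (w + x)) 0 ↔ P c x) →
      (∀ y, Loc (Ev fun c => P c y) (ann y m n)) →
      Pr (Ev fun c => P c x) = Pr (Ev fun c => P c 0) := by
    intro P hP hL
    have e : {b : V → Bool | (fun v => b ((Equiv.addRight x) v)) ∈ (Ev fun c => P c 0)} =
        Ev fun c => P c x := by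
      ext b
      simp only [Ev, Set.mem_ofPred_eq, Equiv.coe_addRight]
      rw [GTR_col hx1 hx2 b]
      exact hP _
    have h := GTR_pr hs hm (Equiv.addRight x) (Ev fun c => P c 0) (ann 0 m n) (ann x m n) (hL 0)
      (by rw [e]; exact hL x)
    rw [e] at h
    exact h
  refine ⟨key (fun c y => four c y m n) (fun c => GTR_four hx1 hx2 c m n)
    (fun y => GTR_loc_four y m n), key (fun c y => two c y m n) ?_ (fun y => GTR_loc_two y m n)⟩
  intro c
  exact and_congr (GTR_arm hx1 hx2 c true m n) (GTR_arm hx1 hx2 c false m n)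

end DP
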