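import Pool.Agent.helper96.DP.SpecF

/-! Project dp, module QMX: convenient form of quasi-multiplicativity. -/

namespace DP

open MeasureTheory

theorem QMX_nonneg (ρ : V → ℝ) (j : ℕ) (x : V) (m n : ℕ) : 0 ≤ qa ρ j x m n := measureReal_nonneg

theorem QMX_le_one (ρ : V → ℝ) (j : ℕ) (x : V) (m n : ℕ) : qa ρ j x m n ≤ 1 := by
  unfold qa Q PP
  exact measureReal_le_one

theorem QMX_iter (f : ℕ → ℝ) (C : ℝ) (hC : 0 ≤ C) (b : ℕ) (h : ∀ s, f (b + s) ≤ C * f (b + s + 1))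
    (r : ℕ) : f b ≤ C ^ r * f (b + r) := by
  induction r with
  | zero => simp
  | succ r ih =>
    calc f b ≤ C ^ r * f (b + r) := ih
      _ ≤ C ^ r * (C * f (b + r + 1)) := mul_le_mul_of_nonneg_left (h r) (pow_nonneg hC r)
      _ = C ^ (r + 1) * f (b + (r + 1)) := by rw [pow_succ, ← add_assoc]; ring

theorem QMX (hq : QM_stmt) (he : EXT_stmt) (hs : SUB_stmt) : QMX_stmt := by
  obtain ⟨c, hc, i, hq⟩ := hq
  obtain ⟨c', hc', i', he⟩ := he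
  set C : ℝ := max 1 (max c⁻¹ c'⁻¹) with hC
  have hC1 : 1 ≤ C := le_max_left _ _
  have hC0 : 0 ≤ C := by linarith
  have hCc : c⁻¹ ≤ C := (le_max_left _ _).trans (le_max_right _ _)
  have hCc' : c'⁻¹ ≤ C := (le_max_right _ _).trans (le_max_right _ _)
  have conv : ∀ (e u v : ℝ), 0 < e → e⁻¹ ≤ C → 0 ≤ v → e * u ≤ v → u ≤ C * v := by
    intro e u v he1 he2 hv h
    have h1 : u ≤ e⁻¹ * v := by
      rw [inv_mul_eq_div, le_div_iff₀ he1]
      linarith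
    exact h1.trans (mul_le_mul_of_nonneg_right he2 hv)
  refine ⟨C, hC1, max i i', ?_⟩
  intro j ρ x a b r d hj hρ hx ha hab hbd
  have ha1 : i ≤ a := (le_max_left _ _).trans ha
  have ha2 : i' ≤ a := (le_max_right _ _).trans ha
  have hext : ∀ s, qa ρ j x (2 ^ a) (2 ^ (b + s)) ≤ C * qa ρ j x (2 ^ a) (2 ^ (b + s + 1)) :=
    fun s => conv c' _ _ hc' hCc' (QMX_nonneg _ _ _ _ _) (he j ρ x a (b + s) hj hρ hx ha2 (by omega)).1
  have hit := QMX_iter (fun s => qa ρ j x (2 ^ a) (2 ^ s)) C hC0 b hext r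
  constructor
  · rcases eq_or_lt_of_le hbd with h | h
    · subst h
      calc qa ρ j x (2 ^ a) (2 ^ b) * qa ρ j x (2 ^ (b + r)) (2 ^ (b + r))
          ≤ qa ρ j x (2 ^ a) (2 ^ b) * 1 :=
            mul_le_mul_of_nonneg_left (QMX_le_one _ _ _ _ _) (QMX_nonneg _ _ _ _ _)
        _ ≤ C ^ r * qa ρ j x (2 ^ a) (2 ^ (b + r)) := by rw [mul_one]; exact hit
        _ ≤ C ^ (r + 1) * qa ρ j x (2 ^ a) (2 ^ (b + r)) :=
            mul_le_mul_of_nonneg_right (pow_le_pow_right₀ hC1 (by omega)) (QMX_nonneg _ _ _ _ _)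
    · have h1 : qa ρ j x (2 ^ a) (2 ^ (b + r)) * qa ρ j x (2 ^ (b + r)) (2 ^ d) ≤
          C * qa ρ j x (2 ^ a) (2 ^ d) :=
        conv c _ _ hc hCc (QMX_nonneg _ _ _ _ _) (hq j ρ x a (b + r) d hj hρ hx ha1 (by omega) h)
      calc qa ρ j x (2 ^ a) (2 ^ b) * qa ρ j x (2 ^ (b + r)) (2 ^ d)
          ≤ (C ^ r * qa ρ j x (2 ^ a) (2 ^ (b + r))) * qa ρ j x (2 ^ (b + r)) (2 ^ d) :=
            mul_le_mul_of_nonneg_right hit (QMX_nonneg _ _ _ _ _)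
        _ = C ^ r * (qa ρ j x (2 ^ a) (2 ^ (b + r)) * qa ρ j x (2 ^ (b + r)) (2 ^ d)) := by ring
        _ ≤ C ^ r * (C * qa ρ j x (2 ^ a) (2 ^ d)) :=
            mul_le_mul_of_nonneg_left h1 (pow_nonneg hC0 r)
        _ = C ^ (r + 1) * qa ρ j x (2 ^ a) (2 ^ d) := by rw [pow_succ]; ring
  · intro hbd'
    have h2 : (2 : ℕ) ^ b < 2 ^ (b + 1) := Nat.pow_lt_pow_right (by norm_num) (by omega)
    have h1 : qa ρ j x (2 ^ a) (2 ^ d) ≤
        qa ρ j x (2 ^ a) (2 ^ b) * qa ρ j x (2 ^ (b + 1)) (2 ^ d) :=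
      hs j ρ x (2 ^ a) (2 ^ b) (2 ^ (b + 1)) (2 ^ d) hj (Nat.pow_le_pow_right (by norm_num) hab.le) h2
        (Nat.pow_le_pow_right (by norm_num) hbd')
    have h3 : qa ρ j x (2 ^ (b + 1)) (2 ^ d) ≤ C * qa ρ j x (2 ^ b) (2 ^ d) := by
      rcases eq_or_lt_of_le (show b + 1 ≤ d from hbd') with h | h
      · subst h
        refine (QMX_le_one _ _ _ _ _).trans (conv c' _ _ hc' hCc' (QMX_nonneg _ _ _ _ _) ?_)
        rw [mul_one]
        exact (he j ρ x b (b + 1) hj hρ hx (by omega) (by omega)).2.2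
      · refine conv c' _ _ hc' hCc' (QMX_nonneg _ _ _ _ _) ?_
        have := (he j ρ x (b + 1) d hj hρ hx (by omega) h).2.1 (by omega)
        rw [Nat.add_sub_cancel] at this
        exact this
    calc qa ρ j x (2 ^ a) (2 ^ d) ≤ qa ρ j x (2 ^ a) (2 ^ b) * qa ρ j x (2 ^ (b + 1)) (2 ^ d) := h1
      _ ≤ qa ρ j x (2 ^ a) (2 ^ b) * (C * qa ρ j x (2 ^ b) (2 ^ d)) :=
        mul_le_mul_of_nonneg_left h3 (QMX_nonneg _ _ _ _ _)
      _ = C * (qa ρ j x (2 ^ a) (2 ^ b) * qa ρ j x (2 ^ b) (2 ^ d)) := by ring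

end DP
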